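import Pool.Agent.TH402.AK.Count
import Pool.Agent.Q241.AC.A

set_option autoImplicit false

/-!
# The radical of a rational integer over the Gaussian integers and over `ℤ`
-/

namespace Pool.Agent.Q252.IT

open Pool.Agent.TH402.AK (rad nm nm_mul nm_nonneg nm_sq one_le_nm quad_finite quadrant_uniq exists_quadrant Quadrant
  rad_le rad_pos)
open Q241.AC (R)

theorem rad_mono {n m : GaussianInt} (hn : n ≠ 0) (hm : m ≠ 0) (h : ∀ Q, Prime Q → Q ∣ n → Q ∣ m) :
    rad n ≤ rad m := by
  classical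
  unfold rad
  rw [finprod_mem_eq_finite_toFinset_prod _ (quad_finite hn), finprod_mem_eq_finite_toFinset_prod _ (quad_finite hm)]
  have hsub : (quad_finite hn).toFinset ⊆ (quad_finite hm).toFinset := by
    intro Q hQ
    rw [Set.Finite.mem_toFinset] at hQ ⊢
    exact ⟨hQ.1, h Q hQ.1 hQ.2.1, hQ.2.2⟩
  rw [← Finset.prod_sdiff hsub]
  refine le_mul_of_one_le_left (Finset.prod_nonneg fun _ _ => norm_nonneg _) ?_
  refine Finset.prod_induction _ (fun x : ℝ => 1 ≤ x) (fun _ _ => one_le_mul_of_one_le_of_one_le) le_rfl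
    fun Q hQ => ?_
  rw [Finset.mem_sdiff, Set.Finite.mem_toFinset] at hQ
  exact one_le_nm hQ.1.1.ne_zero

theorem rad_dvd {n m : GaussianInt} (hm : m ≠ 0) (h : n ∣ m) : rad n ≤ rad m :=
  rad_mono (fun h0 => hm (by rw [h0, zero_dvd_iff] at h; exact h)) hm fun _ _ hQ => hQ.trans h

theorem one_le_rad {n : GaussianInt} (hn : n ≠ 0) : 1 ≤ rad n := by
  classical
  unfold rad
  rw [finprod_mem_eq_finite_toFinset_prod _ (quad_finite hn)]
  refine Finset.prod_induction _ (fun x : ℝ => 1 ≤ x) (fun _ _ => one_le_mul_of_one_le_of_one_le) le_rfl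
    fun Q hQ => ?_
  rw [Set.Finite.mem_toFinset] at hQ
  exact one_le_nm hQ.1.ne_zero

theorem prod_dvd_pow (f : Multiset GaussianInt) (P : GaussianInt) (h : ∀ b ∈ f, b ∣ P) :
    f.prod ∣ P ^ f.card := by
  induction f using Multiset.induction_on with
  | empty => simp
  | cons a s ih =>
    rw [Multiset.prod_cons, Multiset.card_cons, pow_succ, mul_comm]
    exact mul_dvd_mul (ih fun b hb => h b (Multiset.mem_cons_of_mem hb)) (h a (Multiset.mem_cons_self a s))

theorem nm_le_rad {x : GaussianInt} (hx : x ≠ 0) (hs : Squarefree x) : nm x ≤ rad x := by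
  classical
  unfold rad
  have hfin := quad_finite hx
  rw [finprod_mem_eq_finite_toFinset_prod _ hfin]
  set P : GaussianInt := ∏ Q ∈ hfin.toFinset, Q with hP
  have h2 : nm P = ∏ Q ∈ hfin.toFinset, ‖GaussianInt.toComplex Q‖ := by
    rw [hP]
    unfold nm
    rw [map_prod, norm_prod]
  rw [← h2]
  have hdvd : x ∣ P := by
    obtain ⟨f, hf, hfx⟩ := UniqueFactorizationMonoid.exists_prime_factors x hx
    have h3 : ∀ b ∈ f, b ∣ P := by
      intro b hb
      have hbx : b ∣ x := (Multiset.dvd_prod hb).trans hfx.dvd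
      obtain ⟨w, hw1, hw2⟩ := exists_quadrant (hf b hb).ne_zero
      have hwp : Prime w := hw2.prime (hf b hb)
      refine hw2.dvd.trans ?_
      rw [hP]
      refine Finset.dvd_prod_of_mem (fun Q => Q) ?_
      rw [Set.Finite.mem_toFinset]
      exact ⟨hwp, hw2.symm.dvd.trans hbx, hw1⟩
    have h4 := prod_dvd_pow f P h3
    have h5 : x ∣ P ^ f.card := hfx.symm.dvd.trans h4
    exact hs.isRadical _ _ h5
  obtain ⟨m, hm⟩ := hdvd
  have hP0 : P ≠ 0 := by
    rw [hP, Finset.prod_ne_zero_iff]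
    intro Q hQ
    rw [Set.Finite.mem_toFinset] at hQ
    exact hQ.1.ne_zero
  have hm0 : m ≠ 0 := by
    rintro rfl
    exact hP0 (by rw [hm, mul_zero])
  rw [hm, nm_mul]
  exact le_mul_of_one_le_right (nm_nonneg _) (one_le_nm hm0)

theorem nm_int (s : ℤ) : nm (s : GaussianInt) = |(s : ℝ)| := by
  unfold nm
  have : GaussianInt.toComplex (s : GaussianInt) = ((s : ℝ) : ℂ) := by
    rw [GaussianInt.toComplex_def]
    simp
  rw [this, Complex.norm_real, Real.norm_eq_abs]

theorem dvd_int {a b : ℤ} (h : a ∣ b) : (a : GaussianInt) ∣ (b : GaussianInt) := by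
  obtain ⟨c, rfl⟩ := h
  exact ⟨c, by push_cast; ring⟩

theorem cop_int {a b : ℤ} (h : IsCoprime a b) : IsCoprime (a : GaussianInt) (b : GaussianInt) := by
  obtain ⟨x, y, hxy⟩ := h
  exact ⟨x, y, by exact_mod_cast congrArg (fun t : ℤ => (t : GaussianInt)) hxy⟩

theorem mul_star (d : GaussianInt) : d * star d = ((d.norm : ℤ) : GaussianInt) := by
  rw [Zsqrtd.norm_eq_mul_conj]

/-- an odd squarefree integer is squarefree over the Gaussian integers -/
theorem sqfree {s : ℤ} (hs : Squarefree s) (hodd : Odd s) : Squarefree (s : GaussianInt) := by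
  intro d hd
  have hs0 : s ≠ 0 := hs.ne_zero
  have hsG : (s : GaussianInt) ≠ 0 := by exact_mod_cast hs0
  have hd0 : d ≠ 0 := by
    rintro rfl
    rw [mul_zero, zero_dvd_iff] at hd
    exact hsG hd
  set m : ℤ := d.norm with hm
  have hms : m ∣ s := by
    obtain ⟨e, he⟩ := hd
    have h1 : (s : GaussianInt).norm = s ^ 2 := by
      rw [Zsqrtd.norm_def]
      simp
      ring
    have h2 : m ^ 2 ∣ s ^ 2 := by
      refine ⟨e.norm, ?_⟩
      rw [← h1, he, Zsqrtd.norm_mul, Zsqrtd.norm_mul, hm]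
      ring
    exact (Int.pow_dvd_pow_iff (by norm_num)).1 h2
  obtain ⟨t, ht⟩ := hms
  have hmt : IsCoprime m t := by
    rw [Int.isCoprime_iff_gcd_eq_one]
    have h1 : Squarefree (m.natAbs * t.natAbs) := by
      rw [← Int.natAbs_mul, ← ht]
      exact Int.squarefree_natAbs.2 hs
    exact Nat.coprime_of_squarefree_mul h1
  have hdm : d ∣ (m : GaussianInt) := ⟨star d, (mul_star d).symm⟩
  have hdt : IsCoprime d (t : GaussianInt) := (cop_int hmt).of_isCoprime_of_dvd_left hdm
  have hdd : d ∣ star d := by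
    have h1 : d * d ∣ d * (star d * (t : GaussianInt)) := by
      have : d * (star d * (t : GaussianInt)) = (s : GaussianInt) := by
        rw [ht, Int.cast_mul, ← mul_assoc, mul_star]
      rw [this]
      exact hd
    have h2 := (mul_dvd_mul_iff_left hd0).1 h1
    exact hdt.dvd_of_dvd_mul_right h2
  have hmodd : Odd m := by
    rw [ht] at hodd
    exact (Int.odd_mul.1 hodd).1
  have hd2 : IsCoprime d (2 : GaussianInt) := by
    have h1 : IsCoprime m (2 : ℤ) := by
      obtain ⟨k, hk⟩ := hmodd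
      exact ⟨1, -k, by rw [hk]; ring⟩
    have h2 := (cop_int h1).of_isCoprime_of_dvd_left hdm
    exact_mod_cast h2
  have hre : d ∣ (d.re : GaussianInt) := by
    have h1 : d ∣ 2 * (d.re : GaussianInt) := by
      have : 2 * (d.re : GaussianInt) = d + star d := by
        apply Zsqrtd.ext
        · simp; ring
        · simp
      rw [this]
      exact dvd_add dvd_rfl hdd
    exact hd2.dvd_of_dvd_mul_left h1
  have him : d ∣ (d.im : GaussianInt) := by
    have h1 : d ∣ 2 * (d.im : GaussianInt) := by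
      have : 2 * (d.im : GaussianInt) = (d - star d) * ⟨0, -1⟩ := by
        apply Zsqrtd.ext
        · simp; ring
        · simp
      rw [this]
      exact Dvd.dvd.mul_right (dvd_sub dvd_rfl hdd) _
    exact hd2.dvd_of_dvd_mul_left h1
  obtain ⟨x, y, hxy⟩ : ∃ x y : ℤ, (Int.gcd d.re d.im : ℤ) = d.re * x + d.im * y :=
    ⟨_, _, Int.gcd_eq_gcd_ab d.re d.im⟩
  set g : ℤ := (Int.gcd d.re d.im : ℤ) with hg
  have hdg : d ∣ (g : GaussianInt) := by
    rw [hxy]
    push_cast
    exact dvd_add (Dvd.dvd.mul_right hre _) (Dvd.dvd.mul_right him _)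
  have hgd : (g : GaussianInt) ∣ d := by
    rw [Zsqrtd.intCast_dvd]
    exact ⟨Int.gcd_dvd_left _ _, Int.gcd_dvd_right _ _⟩
  have hgg : g * g ∣ m := by
    obtain ⟨z, hz⟩ := hgd
    refine ⟨z.norm, ?_⟩
    rw [hm]
    conv_lhs => rw [hz]
    rw [Zsqrtd.norm_mul, Zsqrtd.norm_def (g : GaussianInt)]
    simp
  have hgu : IsUnit g := hs g (hgg.trans ⟨t, ht⟩)
  have : IsUnit (g : GaussianInt) := by
    rcases Int.isUnit_iff.1 hgu with h | h
    · rw [h]; simp
    · rw [h]; simp
  exact isUnit_of_dvd_unit hdg this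

theorem R_le_rad {n : ℕ} (hn : n ≠ 0) : (R n : ℝ) ≤ 2 * rad (n : GaussianInt) := by
  set s : ℕ := ∏ p ∈ n.primeFactors.erase 2, p with hs
  have hsR : s ∣ R n := Finset.prod_dvd_prod_of_subset _ _ _ (Finset.erase_subset _ _)
  have hsn : s ∣ n := hsR.trans (Nat.prod_primeFactors_dvd n)
  have hsq : Squarefree s := by
    have h1 : R n = UniqueFactorizationMonoid.radical n := by
      rw [Nat.radical_eq_prod_primeFactors]
      rfl
    exact Squarefree.squarefree_of_dvd (h1 ▸ hsR) UniqueFactorizationMonoid.squarefree_radical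
  have hodd : Odd s := by
    refine Finset.prod_induction _ (fun x : ℕ => Odd x) (fun _ _ => Odd.mul) odd_one fun p hp => ?_
    rw [Finset.mem_erase] at hp
    exact (Nat.prime_of_mem_primeFactors hp.2).odd_of_ne_two hp.1
  have hR : R n ≤ 2 * s := by
    by_cases h2 : 2 ∈ n.primeFactors
    · exact (Finset.mul_prod_erase n.primeFactors (fun p => p) h2).ge
    · rw [hs, Finset.erase_eq_of_notMem h2]
      unfold R
      omega
  have h3 := nm_le_rad (x := ((s : ℤ) : GaussianInt)) (by
      have : (s : ℤ) ≠ 0 := by exact_mod_cast hsq.ne_zero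
      exact_mod_cast this)
    (sqfree (Int.squarefree_natCast.2 hsq) (by exact_mod_cast hodd))
  rw [nm_int] at h3
  have h4 : rad ((s : ℤ) : GaussianInt) ≤ rad (n : GaussianInt) := by
    refine rad_dvd (by exact_mod_cast hn) ?_
    have := dvd_int (a := (s : ℤ)) (b := (n : ℤ)) (by exact_mod_cast hsn)
    exact_mod_cast this
  have h5 : (R n : ℝ) ≤ 2 * s := by exact_mod_cast hR
  have h6 : |((s : ℤ) : ℝ)| = s := by
    rw [Int.cast_natCast]
    exact abs_of_nonneg (Nat.cast_nonneg _)
  rw [h6] at h3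
  linarith

theorem rad_le_R {n : ℕ} (hn : n ≠ 0) : rad (n : GaussianInt) ≤ R n := by
  have hR0 : R n ≠ 0 := (Q241.AC.R_pos n).ne'
  have hRG : ((R n : ℤ) : GaussianInt) ≠ 0 := by exact_mod_cast hR0
  have h1 : rad (n : GaussianInt) ≤ rad ((R n : ℤ) : GaussianInt) := by
    refine rad_mono (by exact_mod_cast hn) hRG fun Q hQ hQn => ?_
    obtain ⟨k, h2⟩ : ∃ k, n ∣ R n ^ k := by
      have h1 : R n = UniqueFactorizationMonoid.radical n := by
        rw [Nat.radical_eq_prod_primeFactors]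
        rfl
      rw [h1]
      exact UniqueFactorizationMonoid.exists_dvd_radical_self_pow hn
    have h3 : ((n : ℤ) : GaussianInt) ∣ ((R n ^ k : ℤ) : GaussianInt) := dvd_int (by exact_mod_cast h2)
    have h4 : Q ∣ ((R n : ℤ) : GaussianInt) ^ k := by
      refine (by exact_mod_cast hQn : Q ∣ ((n : ℤ) : GaussianInt)).trans ?_
      exact_mod_cast h3
    exact hQ.dvd_of_dvd_pow h4
  refine h1.trans ((rad_le hRG).trans (le_of_eq ?_))
  rw [nm_int, Int.cast_natCast]
  exact abs_of_nonneg (Nat.cast_nonneg _)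

end Pool.Agent.Q252.IT
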