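import Pool.Agent.Q252.IT.A
import Pool.Agent.Q265.LC.G

set_option autoImplicit false

/-!
# Isosceles triangles of Gaussian integers: reduction to sums of two squares
-/

namespace Pool.Agent.Q252.IT

open Pool.Agent.TH402.AK (rad nm nm_mul nm_nonneg nm_sq one_le_nm rad_le rad_pos unit_cases size)
open Q241.AC (R)

/-- the abc inequality over the integers, in the form for all signs -/
def ZABC : Prop := ∀ ε : ℝ, 0 < ε → ∃ κ : ℝ, ∀ a b c : ℤ, a ≠ 0 → b ≠ 0 → c ≠ 0 → IsCoprime a b → a + b = c →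
  ((max |a| (max |b| |c|) : ℤ) : ℝ) ≤ κ * (R (a * b * c).natAbs : ℝ) ^ (1 + ε)

theorem norm_sq (a : GaussianInt) : (a.norm : ℝ) = nm a ^ 2 := by
  rw [nm_sq, Zsqrtd.norm_def]
  push_cast
  ring

/-- two coprime Gaussian integers of the same absolute value are conjugate up to a unit -/
theorem eq_star {a b : GaussianInt} (ha : a ≠ 0) (hc : IsCoprime a b) (h : nm a = nm b) :
    ∃ u : GaussianInt, IsUnit u ∧ b = u * star a := by
  have hN : a.norm = b.norm := by
    have h1 : (a.norm : ℝ) = (b.norm : ℝ) := by rw [norm_sq, norm_sq, h]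
    exact_mod_cast h1
  have h1 : a * star a = b * star b := by rw [mul_star, mul_star, hN]
  have h2 : a ∣ star b := hc.dvd_of_dvd_mul_left ⟨star a, h1.symm⟩
  have hc' : IsCoprime (star a) (star b) := by
    obtain ⟨x, y, hxy⟩ := hc
    refine ⟨star x, star y, ?_⟩
    have := congrArg star hxy
    rw [star_add, star_mul, star_mul, star_one] at this
    rw [mul_comm (star x), mul_comm (star y)]
    exact this
  have h3 : star b ∣ a := hc'.symm.dvd_of_dvd_mul_right ⟨b, by rw [h1]; ring⟩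
  obtain ⟨u, hu⟩ := associated_of_dvd_dvd h2 h3
  refine ⟨star (u : GaussianInt), ?_, ?_⟩
  · exact u.isUnit.star
  · have := congrArg star hu
    rw [star_star, star_mul] at this
    exact this.symm

/-- the reduction -/
theorem reduce {a b : GaussianInt} (ha : a ≠ 0) (hs : a + b ≠ 0) (hc : IsCoprime a b) (h : nm a = nm b) :
    ∃ (X Y : ℤ) (m : ℤ), X ≠ 0 ∧ IsCoprime X Y ∧ (m = 1 ∨ m = 2) ∧ X ^ 2 + Y ^ 2 = m * a.norm ∧
      (X : GaussianInt) ∣ a + b ∧ ((a.norm : ℤ) : GaussianInt) ∣ a * b := by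
  obtain ⟨u, hu, rfl⟩ := eq_star ha hc h
  have hcop : IsCoprime a (star a) := hc.of_isCoprime_of_dvd_right (dvd_mul_left _ _)
  have hdvd : ((a.norm : ℤ) : GaussianInt) ∣ a * (u * star a) := ⟨u, by rw [← mul_star]; ring⟩
  -- the real and the imaginary part are coprime and of different parity
  obtain ⟨x, y, hxy⟩ := hcop
  set m := a.re with hm
  set n := a.im with hn
  have e1 : (a + star a) = 2 * (m : GaussianInt) := by
    apply Zsqrtd.ext
    · simp [hm]; ring
    · simp
  have hmn : IsCoprime m n := by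
    have h1 : (x.re + y.re) * m + (-x.im + y.im) * n = 1 := by
      have := congrArg Zsqrtd.re hxy
      simp only [Zsqrtd.re_add, Zsqrtd.re_mul, Zsqrtd.re_star, Zsqrtd.im_star, Zsqrtd.re_one] at this
      rw [← hm, ← hn] at this
      linarith
    exact ⟨_, _, h1⟩
  have hpar : Odd (m + n) := by
    rw [← Int.not_even_iff_odd]
    rintro ⟨k, hk⟩
    have h1 := congrArg Zsqrtd.re hxy
    have h2 := congrArg Zsqrtd.im hxy
    simp only [Zsqrtd.re_add, Zsqrtd.re_mul, Zsqrtd.re_star, Zsqrtd.im_star, Zsqrtd.re_one, Zsqrtd.im_add,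
      Zsqrtd.im_mul, Zsqrtd.im_one] at h1 h2
    rw [← hm, ← hn] at h1 h2
    have h3 : 2 * ((x.re + y.im) * k + (x.im + y.re) * (k - n)) = 1 := by
      linear_combination h1 + h2 - (x.re + y.im + x.im + y.re) * hk
    omega
  have hcop2 : IsCoprime (m + n) (m - n) := by
    obtain ⟨p, q, hpq⟩ := hmn
    obtain ⟨k, hk⟩ := hpar
    refine ⟨1 - k * p - k * q, -k * p + k * q, ?_⟩
    linear_combination hk - 2 * k * hpq
  have hN : a.norm = m ^ 2 + n ^ 2 := by
    rw [Zsqrtd.norm_def]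
    ring
  rcases unit_cases hu with rfl | rfl | rfl | rfl
  · have e2 : a + 1 * star a = (m : GaussianInt) * 2 := by rw [one_mul, e1]; ring
    refine ⟨m, n, 1, ?_, hmn, Or.inl rfl, by rw [hN]; ring, ⟨2, e2⟩, hdvd⟩
    intro h0
    exact hs (by rw [e2, h0]; simp)
  · have e2 : a + -1 * star a = (n : GaussianInt) * ⟨0, 2⟩ := by
      apply Zsqrtd.ext
      · simp
      · simp [hn]; ring
    refine ⟨n, m, 1, ?_, hmn.symm, Or.inl rfl, by rw [hN]; ring, ⟨_, e2⟩, hdvd⟩
    intro h0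
    exact hs (by rw [e2, h0]; simp)
  · have e2 : a + ⟨0, 1⟩ * star a = ((m + n : ℤ) : GaussianInt) * ⟨1, 1⟩ := by
      apply Zsqrtd.ext
      · simp [hm, hn]
      · simp [hm, hn]; ring
    refine ⟨m + n, m - n, 2, ?_, hcop2, Or.inr rfl, by rw [hN]; ring, ⟨_, e2⟩, hdvd⟩
    intro h0
    exact hs (by rw [e2, h0]; simp)
  · have e2 : a + ⟨0, -1⟩ * star a = ((m - n : ℤ) : GaussianInt) * ⟨1, -1⟩ := by
      apply Zsqrtd.ext
      · simp [hm, hn]; ring
      · simp [hm, hn]; ring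
    refine ⟨m - n, m + n, 2, ?_, hcop2.symm, Or.inr rfl, by rw [hN]; ring, ⟨_, e2⟩, hdvd⟩
    intro h0
    exact hs (by rw [e2, h0]; simp)

end Pool.Agent.Q252.IT
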