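import Pool.Agent.Q252.IT.B

set_option autoImplicit false

/-!
# The inequality for isosceles triangles of Gaussian integers from the abc conjecture over the integers
-/

namespace Pool.Agent.Q252.IT

open Pool.Agent.TH402.AK (rad nm nm_mul nm_nonneg nm_sq nm_add one_le_nm rad_le rad_pos unit_cases size)
open Q241.AC (R R_pos R_one_le R_le R_cube)

theorem R_mono {a b : ℕ} (hb : b ≠ 0) (h : a ∣ b) : R a ≤ R b := by
  refine Nat.le_of_dvd (R_pos b) ?_
  exact Finset.prod_dvd_prod_of_subset _ _ _ (Nat.primeFactors_mono h hb)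

theorem R_mul_le {a b : ℕ} (ha : a ≠ 0) (hb : b ≠ 0) : R (a * b) ≤ R a * b :=
  (R_mono (mul_ne_zero ha (pow_ne_zero 3 hb)) (mul_dvd_mul_left a (dvd_pow_self b (by norm_num)))).trans
    (R_cube ha hb)

theorem R_sq (a : ℕ) : R (a ^ 2) = R a := by
  unfold R
  rw [Nat.primeFactors_pow a (by norm_num)]

theorem rad_int_le {z : ℤ} {w : GaussianInt} (hz : z ≠ 0) (hw : w ≠ 0) (h : (z : GaussianInt) ∣ w) :
    (R z.natAbs : ℝ) ≤ 2 * rad w := by
  have h1 := R_le_rad (Int.natAbs_ne_zero.2 hz)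
  refine h1.trans (mul_le_mul_of_nonneg_left (rad_dvd hw ?_) (by norm_num))
  refine (Dvd.dvd.trans ?_ h)
  have := dvd_int (a := (z.natAbs : ℤ)) (b := z) (Int.natAbs_dvd.2 dvd_rfl)
  rwa [Int.cast_natCast] at this

theorem size_le (a b : GaussianInt) (h : nm a = nm b) : size a b ≤ 2 * nm a := by
  unfold size
  have h1 := nm_nonneg a
  refine max_le ?_ (max_le ?_ ?_)
  · show nm a ≤ 2 * nm a
    linarith
  · show nm b ≤ 2 * nm a
    linarith
  · show nm (a + b) ≤ 2 * nm a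
    have := nm_add a b
    linarith

/-- the final step -/
theorem conclude {ε K A ρ S : ℝ} (h0 : 0 < ε) (h1 : ε < 1) (hK : 1 ≤ K) (hA : 1 ≤ A) (hρ : 1 ≤ ρ)
    (hS : 1 ≤ S) (hS2 : S ≤ 2 * A) (h : A ^ 2 ≤ K * (8 * ρ * A) ^ (1 + ε / 2)) :
    1 / (128 * K) * S ^ (1 - ε) ≤ ρ := by
  have hA0 : 0 < A := by linarith
  have hρ0 : 0 < ρ := by linarith
  have hK0 : 0 < K := by linarith
  have h2 : A ^ (1 - ε / 2) ≤ 64 * K * ρ ^ (1 + ε / 2) := by
    have e1 : (8 * ρ * A) ^ (1 + ε / 2) = 8 ^ (1 + ε / 2) * ρ ^ (1 + ε / 2) * A ^ (1 + ε / 2) := by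
      rw [Real.mul_rpow (by positivity) hA0.le, Real.mul_rpow (by norm_num) hρ0.le]
    have e2 : (8 : ℝ) ^ (1 + ε / 2) ≤ 64 := by
      calc (8 : ℝ) ^ (1 + ε / 2) ≤ 8 ^ (2 : ℝ) :=
            Real.rpow_le_rpow_of_exponent_le (by norm_num) (by linarith)
        _ = 64 := by norm_num
    have e3 : A ^ (2 : ℕ) = A ^ (1 - ε / 2) * A ^ (1 + ε / 2) := by
      rw [← Real.rpow_add hA0, ← Real.rpow_natCast]
      congr 1
      push_cast
      ring
    rw [e1, e3] at h
    have e4 : 0 < A ^ (1 + ε / 2) := Real.rpow_pos_of_pos hA0 _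
    have e5 : A ^ (1 - ε / 2) * A ^ (1 + ε / 2) ≤ (64 * K * ρ ^ (1 + ε / 2)) * A ^ (1 + ε / 2) := by
      refine h.trans ?_
      have e6 : 0 ≤ ρ ^ (1 + ε / 2) * A ^ (1 + ε / 2) := by positivity
      nlinarith [mul_le_mul_of_nonneg_right e2 (mul_nonneg hK0.le e6)]
    exact le_of_mul_le_mul_right e5 e4
  have h3 : A ^ (1 - ε) ≤ 64 * K * ρ := by
    have h4 : A ^ ((1 - ε / 2) / (1 + ε / 2)) ≤ 64 * K * ρ := by
      have h5 := Real.rpow_le_rpow (by positivity) h2 (z := 1 / (1 + ε / 2)) (by positivity)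
      rw [← Real.rpow_mul hA0.le, Real.mul_rpow (by positivity) (by positivity), ← Real.rpow_mul hρ0.le,
        mul_one_div, mul_one_div, div_self (by positivity), Real.rpow_one] at h5
      refine h5.trans (mul_le_mul_of_nonneg_right ?_ hρ0.le)
      calc (64 * K) ^ (1 / (1 + ε / 2)) ≤ (64 * K) ^ (1 : ℝ) :=
            Real.rpow_le_rpow_of_exponent_le (by linarith) (by
              rw [div_le_one (by positivity)]; linarith)
        _ = 64 * K := Real.rpow_one _
    refine (Real.rpow_le_rpow_of_exponent_le hA ?_).trans h4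
    rw [le_div_iff₀ (by positivity)]
    nlinarith
  have h4 : S ^ (1 - ε) ≤ 2 * A ^ (1 - ε) := by
    calc S ^ (1 - ε) ≤ (2 * A) ^ (1 - ε) := Real.rpow_le_rpow (by linarith) hS2 (by linarith)
      _ = 2 ^ (1 - ε) * A ^ (1 - ε) := Real.mul_rpow (by norm_num) hA0.le
      _ ≤ 2 * A ^ (1 - ε) := by
          refine mul_le_mul_of_nonneg_right ?_ (by positivity)
          calc (2 : ℝ) ^ (1 - ε) ≤ 2 ^ (1 : ℝ) :=
                Real.rpow_le_rpow_of_exponent_le (by norm_num) (by linarith)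
            _ = 2 := Real.rpow_one _
  rw [div_mul_eq_mul_div, one_mul, div_le_iff₀ (by positivity)]
  nlinarith

theorem one_le_size {a : GaussianInt} (b : GaussianInt) (ha : a ≠ 0) : 1 ≤ size a b :=
  (one_le_nm ha).trans (le_max_left _ _)

/-- isosceles triangles with `|a| = |b|` -/
theorem iso1 (H : ZABC) {ε : ℝ} (h0 : 0 < ε) : ∃ c : ℝ, 0 < c ∧ ∀ a b : GaussianInt, a ≠ 0 → b ≠ 0 →
    a + b ≠ 0 → IsCoprime a b → nm a = nm b → c * size a b ^ (1 - ε) ≤ rad (a * b * (a + b)) := by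
  rcases le_or_gt 1 ε with h1 | h1
  · refine ⟨1, one_pos, fun a b ha hb hs _ _ => ?_⟩
    rw [one_mul]
    refine le_trans ?_ (one_le_rad (mul_ne_zero (mul_ne_zero ha hb) hs))
    exact Real.rpow_le_one_of_one_le_of_nonpos (one_le_size b ha) (by linarith)
  obtain ⟨κ, hκ⟩ := H (ε / 2) (by positivity)
  refine ⟨1 / (128 * max κ 1), by positivity, fun a b ha hb hs hc h => ?_⟩
  have hw : a * b * (a + b) ≠ 0 := mul_ne_zero (mul_ne_zero ha hb) hs
  have hρ := one_le_rad hw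
  have hA := one_le_nm ha
  have hN0 : a.norm ≠ 0 := by
    rw [Ne, Zsqrtd.norm_eq_zero_iff (by norm_num)]
    exact ha
  have hNpos : 0 < a.norm := lt_of_le_of_ne (GaussianInt.norm_nonneg a) (Ne.symm hN0)
  obtain ⟨X, Y, m, hX, hXY, hm, hsum, hd1, hd2⟩ := reduce ha hs hc h
  refine conclude h0 h1 (le_max_right _ _) hA hρ (one_le_size b ha) (size_le a b h) ?_
  rw [← norm_sq]
  have hNr : (1 : ℝ) ≤ (a.norm : ℝ) := by exact_mod_cast hNpos
  have hm1 : 1 ≤ m := by rcases hm with rfl | rfl <;> norm_num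
  have hm2 : m ≤ 2 := by rcases hm with rfl | rfl <;> norm_num
  have hbase : 1 ≤ 8 * rad (a * b * (a + b)) * nm a := by nlinarith
  by_cases hY : Y = 0
  · -- then everything is trivial
    subst hY
    have hX1 : X ^ 2 = 1 := by
      have := isCoprime_zero_right.1 hXY
      rcases Int.isUnit_iff.1 this with h | h <;> rw [h] <;> norm_num
    have h2 : a.norm ≤ 1 := by nlinarith
    have h3 : (a.norm : ℝ) ≤ 1 := by exact_mod_cast h2
    have h4 : 1 ≤ (8 * rad (a * b * (a + b)) * nm a) ^ (1 + ε / 2) :=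
      Real.one_le_rpow hbase (by positivity)
    have h5 : 1 ≤ max κ 1 := le_max_right _ _
    nlinarith
  · have hmN : m * a.norm ≠ 0 := mul_ne_zero (by omega) hN0
    have h2 := hκ (X ^ 2) (Y ^ 2) (m * a.norm) (pow_ne_zero 2 hX) (pow_ne_zero 2 hY) hmN
      (hXY.pow) hsum
    have h3 : (a.norm : ℝ) ≤ ((max |X ^ 2| (max |Y ^ 2| |m * a.norm|) : ℤ) : ℝ) := by
      have : a.norm ≤ max |X ^ 2| (max |Y ^ 2| |m * a.norm|) := by
        refine le_trans ?_ ((le_max_right _ _).trans (le_max_right _ _))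
        rw [abs_of_nonneg (by positivity)]
        nlinarith
      exact_mod_cast this
    refine h3.trans (h2.trans ?_)
    have hR1 : (0 : ℝ) ≤ (R (X ^ 2 * Y ^ 2 * (m * a.norm)).natAbs : ℝ) := Nat.cast_nonneg _
    have hle : (R (X ^ 2 * Y ^ 2 * (m * a.norm)).natAbs : ℝ) ≤ 8 * rad (a * b * (a + b)) * nm a := by
      have e1 : (X ^ 2 * Y ^ 2 * (m * a.norm)).natAbs ∣
          (((X * a.norm).natAbs) * ((Y * m).natAbs)) ^ 2 := by
        rw [← Int.natAbs_mul, ← Int.natAbs_pow, Int.natAbs_dvd_natAbs]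
        exact ⟨m * a.norm, by ring⟩
      have hn1 : (X * a.norm).natAbs ≠ 0 := Int.natAbs_ne_zero.2 (mul_ne_zero hX hN0)
      have hn2 : (Y * m).natAbs ≠ 0 := Int.natAbs_ne_zero.2 (mul_ne_zero hY (by omega))
      have e2 := R_mono (pow_ne_zero 2 (mul_ne_zero hn1 hn2)) e1
      rw [R_sq] at e2
      have e3 := e2.trans (R_mul_le hn1 hn2)
      have e4 : (R (X ^ 2 * Y ^ 2 * (m * a.norm)).natAbs : ℝ) ≤
          (R (X * a.norm).natAbs : ℝ) * ((Y * m).natAbs : ℝ) := by exact_mod_cast e3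
      have e5 : (R (X * a.norm).natAbs : ℝ) ≤ 2 * rad (a * b * (a + b)) := by
        refine rad_int_le (mul_ne_zero hX hN0) hw ?_
        rw [Int.cast_mul, mul_comm (a * b)]
        exact mul_dvd_mul hd1 hd2
      have e6 : ((Y * m).natAbs : ℝ) ≤ 4 * nm a := by
        have e7 : ((Y * m).natAbs : ℝ) = |((Y * m : ℤ) : ℝ)| := by
          rw [Nat.cast_natAbs, Int.cast_abs]
        rw [e7]
        have e8 : ((Y * m : ℤ) : ℝ) ^ 2 ≤ (4 * nm a) ^ 2 := by
          have e9 : (Y * m) ^ 2 ≤ 16 * a.norm := by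
            have k1 : Y ^ 2 ≤ m * a.norm := by nlinarith [sq_nonneg X]
            rcases hm with rfl | rfl
            · nlinarith
            · nlinarith
          have e10 : ((Y * m : ℤ) : ℝ) ^ 2 ≤ 16 * (a.norm : ℝ) := by exact_mod_cast e9
          rw [norm_sq] at e10
          nlinarith
        exact abs_le_of_sq_le_sq e8 (by linarith)
      have e11 : (0 : ℝ) ≤ ((Y * m).natAbs : ℝ) := Nat.cast_nonneg _
      calc _ ≤ (R (X * a.norm).natAbs : ℝ) * ((Y * m).natAbs : ℝ) := e4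
        _ ≤ (2 * rad (a * b * (a + b))) * (4 * nm a) := mul_le_mul e5 e6 e11 (by linarith)
        _ = _ := by ring
    calc κ * (R (X ^ 2 * Y ^ 2 * (m * a.norm)).natAbs : ℝ) ^ (1 + ε / 2)
        ≤ max κ 1 * (R (X ^ 2 * Y ^ 2 * (m * a.norm)).natAbs : ℝ) ^ (1 + ε / 2) :=
          mul_le_mul_of_nonneg_right (le_max_left _ _) (by positivity)
      _ ≤ _ := mul_le_mul_of_nonneg_left (Real.rpow_le_rpow hR1 hle (by positivity)) (by positivity)

end Pool.Agent.Q252.IT
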