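import Pool.Agent.Q252.IT.C
import Pool.Agent.Q265.SP.A

set_option autoImplicit false

/-!
# Isosceles and degenerate triangles, and the converse
-/

namespace Pool.Agent.Q252.IT

open Pool.Agent.TH402.AK (rad nm nm_mul nm_nonneg nm_sq nm_add one_le_nm rad_le rad_pos unit_cases size)
open Q241.AC (R R_pos R_one_le R_le R_cube)

theorem nm_neg (a : GaussianInt) : nm (-a) = nm a := by
  unfold nm
  rw [map_neg, norm_neg]

/-- isosceles triangles -/
theorem iso (H : ZABC) {ε : ℝ} (h0 : 0 < ε) : ∃ c : ℝ, 0 < c ∧ ∀ a b : GaussianInt, a ≠ 0 → b ≠ 0 →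
    a + b ≠ 0 → IsCoprime a b → (nm a = nm b ∨ nm b = nm (a + b) ∨ nm a = nm (a + b)) →
    c * size a b ^ (1 - ε) ≤ rad (a * b * (a + b)) := by
  obtain ⟨c, hc0, hc⟩ := iso1 H h0
  refine ⟨c, hc0, fun a b ha hb hs hab h => ?_⟩
  have hw : a * b * (a + b) ≠ 0 := mul_ne_zero (mul_ne_zero ha hb) hs
  rcases h with h | h | h
  · exact hc a b ha hb hs hab h
  · have h1 := hc (a + b) (-b) hs (neg_ne_zero.2 hb) (by rwa [add_neg_cancel_right])
      (by
        have : IsCoprime (a + b * 1) b := (IsCoprime.add_mul_left_left_iff).2 hab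
        rw [mul_one] at this
        exact this.neg_right) (by rw [nm_neg]; exact h.symm)
    rw [add_neg_cancel_right] at h1
    have e1 : size (a + b) (-b) = size a b := by
      unfold size
      rw [add_neg_cancel_right]
      have : ‖GaussianInt.toComplex (-b)‖ = ‖GaussianInt.toComplex b‖ := by rw [map_neg, norm_neg]
      rw [this, max_comm, max_assoc, max_comm, max_assoc]
      congr 1
      exact max_comm _ _
    rw [e1] at h1
    refine h1.trans (rad_dvd hw ?_)
    exact ⟨-1, by ring⟩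
  · have h1 := hc (a + b) (-a) hs (neg_ne_zero.2 ha) (by
        rw [add_comm a b, add_neg_cancel_right]; exact hb)
      (by
        have : IsCoprime (b + a * 1) a := (IsCoprime.add_mul_left_left_iff).2 hab.symm
        rw [mul_one, add_comm] at this
        exact this.neg_right) (by rw [nm_neg]; exact h.symm)
    have e0 : a + b + -a = b := by ring
    have e1 : size (a + b) (-a) = size a b := by
      unfold size
      rw [e0]
      have : ‖GaussianInt.toComplex (-a)‖ = ‖GaussianInt.toComplex a‖ := by rw [map_neg, norm_neg]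
      rw [this, max_comm, max_assoc]
    rw [e1, e0] at h1
    refine h1.trans (rad_dvd hw ?_)
    exact ⟨-1, by ring⟩

/-- degenerate triangles come from rational integers -/
theorem degen {a b : GaussianInt} (ha : a ≠ 0) (hb : b ≠ 0) (hc : IsCoprime a b) (h : (a * star b).im = 0) :
    ∃ (v : GaussianInt) (p q : ℤ), IsUnit v ∧ IsCoprime p q ∧ a = p * v ∧ b = q * v := by
  set r : ℤ := (a * star b).re with hr
  have e1 : a * star b = (r : GaussianInt) := by
    apply Zsqrtd.ext
    · simp [hr]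
    · rw [h]; simp
  set N : ℤ := b.norm with hN
  have hN0 : N ≠ 0 := by
    rw [hN, Ne, Zsqrtd.norm_eq_zero_iff (by norm_num)]
    exact hb
  have e2 : (N : GaussianInt) * a = r * b := by
    rw [← e1, hN, ← mul_star]
    ring
  set g : ℤ := (Int.gcd r N : ℤ) with hg
  have hg0 : g ≠ 0 := by
    rw [hg]
    exact_mod_cast (Int.gcd_pos_of_ne_zero_right r hN0).ne'
  obtain ⟨p, hp⟩ : g ∣ r := Int.gcd_dvd_left _ _
  obtain ⟨q, hq⟩ : g ∣ N := Int.gcd_dvd_right _ _
  have hpq : IsCoprime p q := by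
    have h1 : (Int.gcd r N : ℤ) = r * Int.gcdA r N + N * Int.gcdB r N := Int.gcd_eq_gcd_ab r N
    rw [← hg] at h1
    refine ⟨Int.gcdA r N, Int.gcdB r N, ?_⟩
    apply mul_left_cancel₀ hg0
    rw [mul_one]
    conv_rhs => rw [h1]
    conv_rhs => rw [hp, hq]
    rw [← hp, ← hq]
    linear_combination (-Int.gcdA r N) * hp - (Int.gcdB r N) * hq
  have hgG : (g : GaussianInt) ≠ 0 := by exact_mod_cast hg0
  have e3 : (q : GaussianInt) * a = p * b := by
    apply mul_left_cancel₀ hgG
    rw [← mul_assoc, ← mul_assoc, ← Int.cast_mul, ← Int.cast_mul, ← hp, ← hq]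
    exact e2
  have hap : a ∣ (p : GaussianInt) := hc.dvd_of_dvd_mul_right ⟨q, by rw [← e3]; ring⟩
  have hpa : (p : GaussianInt) ∣ a := (cop_int hpq).dvd_of_dvd_mul_left ⟨b, e3⟩
  obtain ⟨v, hv⟩ := associated_of_dvd_dvd hpa hap
  have hp0 : (p : GaussianInt) ≠ 0 := by
    intro h0
    rw [h0, zero_mul] at hv
    exact ha hv.symm
  refine ⟨v, p, q, v.isUnit, hpq, hv.symm, ?_⟩
  apply mul_left_cancel₀ hp0
  rw [← e3, ← hv]
  ring

theorem nm_unit {v : GaussianInt} (hv : IsUnit v) : nm v = 1 := by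
  have h1 : v.norm = 1 := (Zsqrtd.norm_eq_one_iff' (by norm_num) v).2 hv
  have h2 := norm_sq v
  rw [h1] at h2
  have h3 := nm_nonneg v
  push_cast at h2
  nlinarith

/-- degenerate triangles -/
theorem deg (H : ZABC) {ε : ℝ} (h0 : 0 < ε) : ∃ c : ℝ, 0 < c ∧ ∀ a b : GaussianInt, a ≠ 0 → b ≠ 0 →
    a + b ≠ 0 → IsCoprime a b → (a * star b).im = 0 → c * size a b ^ (1 - ε) ≤ rad (a * b * (a + b)) := by
  obtain ⟨κ, hκ⟩ := H ε h0
  refine ⟨1 / (2 * max κ 1), by positivity, fun a b ha hb hs hc h => ?_⟩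
  have hw : a * b * (a + b) ≠ 0 := mul_ne_zero (mul_ne_zero ha hb) hs
  have hρ := one_le_rad hw
  have hS := one_le_size b ha
  obtain ⟨v, p, q, hv, hpq, rfl, rfl⟩ := degen ha hb hc h
  have hp0 : p ≠ 0 := by rintro rfl; simp at ha
  have hq0 : q ≠ 0 := by rintro rfl; simp at hb
  have es : (p : GaussianInt) * v + q * v = ((p + q : ℤ) : GaussianInt) * v := by push_cast; ring
  have hpq0 : p + q ≠ 0 := by
    intro h0
    rw [es, h0] at hs
    simp at hs
  have h1 := hκ p q (p + q) hp0 hq0 hpq0 hpq rfl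
  have h2 : size ((p : GaussianInt) * v) (q * v) = ((max |p| (max |q| |p + q|) : ℤ) : ℝ) := by
    have k : ∀ x : ℤ, ‖GaussianInt.toComplex ((x : GaussianInt) * v)‖ = ((|x| : ℤ) : ℝ) := by
      intro x
      have := nm_mul (x : GaussianInt) v
      rw [nm_unit hv, mul_one, nm_int] at this
      rw [Int.cast_abs, ← this]
      rfl
    unfold size
    rw [es, k, k, k]
    push_cast
    rfl
  rw [← h2] at h1
  set S := size ((p : GaussianInt) * v) (q * v) with hSdef
  set ρ := rad ((p : GaussianInt) * v * (q * v) * (p * v + q * v)) with hρdef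
  have hR : (R (p * q * (p + q)).natAbs : ℝ) ≤ 2 * ρ := by
    refine rad_int_le (mul_ne_zero (mul_ne_zero hp0 hq0) hpq0) hw ?_
    refine ⟨v ^ 3, ?_⟩
    push_cast
    ring
  have hK : 1 ≤ max κ 1 := le_max_right _ _
  have hK0 : 0 < max κ 1 := by linarith
  have hρ0 : 0 < ρ := by linarith
  have h3 : S ≤ max κ 1 * (2 * ρ) ^ (1 + ε) := by
    refine h1.trans ?_
    calc κ * (R (p * q * (p + q)).natAbs : ℝ) ^ (1 + ε)
        ≤ max κ 1 * (R (p * q * (p + q)).natAbs : ℝ) ^ (1 + ε) :=
          mul_le_mul_of_nonneg_right (le_max_left _ _) (by positivity)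
      _ ≤ _ := mul_le_mul_of_nonneg_left (Real.rpow_le_rpow (Nat.cast_nonneg _) hR (by positivity))
          (by positivity)
  have h4 : S ^ (1 / (1 + ε)) ≤ 2 * max κ 1 * ρ := by
    have h5 := Real.rpow_le_rpow (by linarith) h3 (z := 1 / (1 + ε)) (by positivity)
    rw [Real.mul_rpow (by positivity) (by positivity), ← Real.rpow_mul (by positivity),
      mul_one_div, div_self (by positivity), Real.rpow_one] at h5
    refine h5.trans ?_
    have h6 : (max κ 1) ^ (1 / (1 + ε)) ≤ max κ 1 := by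
      calc (max κ 1) ^ (1 / (1 + ε)) ≤ (max κ 1) ^ (1 : ℝ) :=
            Real.rpow_le_rpow_of_exponent_le hK (by rw [div_le_one (by positivity)]; linarith)
        _ = max κ 1 := Real.rpow_one _
    nlinarith
  have h5 : S ^ (1 - ε) ≤ 2 * max κ 1 * ρ := by
    refine (Real.rpow_le_rpow_of_exponent_le hS ?_).trans h4
    rw [le_div_iff₀ (by positivity)]
    nlinarith
  rw [div_mul_eq_mul_div, one_mul, div_le_iff₀ (by positivity)]
  linarith

end Pool.Agent.Q252.IT
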