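import Pool.Agent.Q252.IT.D

set_option autoImplicit false

/-!
# The converse: Pythagorean triples and isosceles triangles `z⁴ - z̄⁴`
-/

namespace Pool.Agent.Q252.IT

open Pool.Agent.TH402.AK (rad nm nm_mul nm_nonneg nm_sq nm_add one_le_nm rad_le rad_pos unit_cases size)
open Q241.AC (R R_pos R_one_le R_le R_cube)

theorem nm_pow (a : GaussianInt) (n : ℕ) : nm (a ^ n) = nm a ^ n := by
  unfold nm
  rw [map_pow, norm_pow]

theorem nm_star (a : GaussianInt) : nm (star a) = nm a := by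
  have h1 := norm_sq a
  have h2 := norm_sq (star a)
  rw [Zsqrtd.norm_conj] at h2
  have h3 := nm_nonneg a
  have h4 := nm_nonneg (star a)
  have h5 : nm a ^ 2 = nm (star a) ^ 2 := by rw [← h1, ← h2]
  exact ((sq_eq_sq₀ h3 h4).1 h5).symm

/-- the inequality for the triples `z⁴ - z̄⁴` gives the inequality for the Pythagorean triples -/
theorem pyth {ε : ℝ} (h1 : ε < 1) {c : ℝ} (hc0 : 0 < c)
    (h : ∀ w : GaussianInt, IsCoprime (w ^ 4) (-(star w) ^ 4) → w ^ 4 ≠ 0 → w ^ 4 + -(star w) ^ 4 ≠ 0 →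
      c * size (w ^ 4) (-(star w) ^ 4) ^ (1 - ε) ≤ rad (w ^ 4 * -(star w) ^ 4 * (w ^ 4 + -(star w) ^ 4)))
    {x y z : ℕ} (hx : 0 < x) (hy : 0 < y) (hcop : Nat.Coprime (x ^ 2) (4 * y ^ 2))
    (hxyz : x ^ 2 + 4 * y ^ 2 = z ^ 2) :
    c * ((z ^ 2 : ℕ) : ℝ) ^ (1 - ε) ≤ (R (x ^ 2 * (4 * y ^ 2) * z ^ 2) : ℝ) := by
  have hxodd : x % 2 = 1 := by
    by_contra h0
    have h2 : 2 ∣ x := by omega
    have h3 : 2 ∣ Nat.gcd (x ^ 2) (4 * y ^ 2) :=
      Nat.dvd_gcd (Dvd.dvd.trans h2 (dvd_pow_self x (by norm_num))) (Dvd.dvd.mul_right (by norm_num) _)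
    rw [hcop] at h3
    omega
  have hz : 0 < z := by
    rcases Nat.eq_zero_or_pos z with rfl | h0
    · exfalso
      have : 0 < x ^ 2 := by positivity
      omega
    · exact h0
  have hP : PythagoreanTriple (x : ℤ) (2 * y : ℤ) (z : ℤ) := by
    unfold PythagoreanTriple
    have : (x : ℤ) ^ 2 + 4 * (y : ℤ) ^ 2 = (z : ℤ) ^ 2 := by exact_mod_cast hxyz
    linarith
  have hg : Int.gcd (x : ℤ) (2 * y : ℤ) = 1 := by
    have h2 : Nat.Coprime (x ^ 2) ((2 * y) ^ 2) := by rw [mul_pow]; exact hcop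
    have h3 := (Nat.coprime_pow_left_iff (by norm_num) _ _).1 ((Nat.coprime_pow_right_iff (by norm_num) _ _).1 h2)
    have h4 : Int.gcd ((x : ℕ) : ℤ) ((2 * y : ℕ) : ℤ) = 1 := by rw [Int.gcd_natCast_natCast]; exact h3
    simpa using h4
  obtain ⟨m, n, e1, e2, e3, e4, e5, -⟩ := hP.coprime_classification' hg (by omega) (by exact_mod_cast hz)
  set w : GaussianInt := ⟨m, n⟩ with hw
  have hN : w.norm = z := by rw [Zsqrtd.norm_def, e3]; simp [hw]; ring
  have hws : w * star w = ((z : ℤ) : GaussianInt) := by rw [mul_star, hN]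
  have hw2 : w ^ 2 = ⟨x, 2 * y⟩ := by
    apply Zsqrtd.ext
    · rw [pow_two]; simp [hw]; linarith
    · rw [pow_two]; simp [hw]; linarith
  have hw2' : (star w) ^ 2 = ⟨x, -(2 * y)⟩ := by
    rw [← star_pow, hw2]
    rfl
  have hsum : w ^ 4 + -(star w) ^ 4 = ⟨0, 8 * x * y⟩ := by
    have k1 : w ^ 4 = (w ^ 2) ^ 2 := by ring
    have k2 : (star w) ^ 4 = ((star w) ^ 2) ^ 2 := by ring
    rw [k1, k2, hw2, hw2', pow_two, pow_two]
    apply Zsqrtd.ext
    · simp
    · simp; ring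
  have hxyne : (8 * (x : ℤ) * y) ≠ 0 := by positivity
  have hs0 : w ^ 4 + -(star w) ^ 4 ≠ 0 := by
    rw [hsum]
    intro h0
    have := congrArg Zsqrtd.im h0
    simp at this
    omega
  have hw0 : w ≠ 0 := by
    intro h0
    rw [h0] at hN
    simp at hN
    omega
  have hcopw : IsCoprime w (star w) := by
    have k1 : IsCoprime (2 * m) (z : ℤ) := by
      have k2 : IsCoprime m (z : ℤ) := by
        rw [e3]
        have : IsCoprime m n := Int.isCoprime_iff_gcd_eq_one.2 e4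
        have k3 : IsCoprime m (n ^ 2 + m * m) := (IsCoprime.add_mul_left_right_iff).2 (this.pow_right)
        have k4 : m ^ 2 + n ^ 2 = n ^ 2 + m * m := by ring
        rw [k4]
        exact k3
      refine IsCoprime.mul_left ?_ k2
      have k5 : Odd (z : ℤ) := by
        rw [e3]
        rcases e5 with ⟨a, b⟩ | ⟨a, b⟩
        · have : Even m := Int.even_iff.2 a
          have hb : Odd n := Int.odd_iff.2 b
          exact (this.pow_of_ne_zero (by norm_num)).add_odd hb.pow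
        · have : Odd m := Int.odd_iff.2 a
          have hb : Even n := Int.even_iff.2 b
          exact this.pow.add_even (hb.pow_of_ne_zero (by norm_num))
      obtain ⟨k, hk⟩ := k5
      exact ⟨-k, 1, by rw [hk]; ring⟩
    have k2 := cop_int k1
    have k3 : (((2 * m : ℤ)) : GaussianInt) = w + star w := by
      apply Zsqrtd.ext
      · simp [hw]; ring
      · simp [hw]
    rw [k3, ← hws] at k2
    have k4 : IsCoprime (w + star w) w := k2.of_mul_right_left
    have k5 : IsCoprime (star w + w * 1) w := by rw [mul_one, add_comm]; exact k4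
    exact ((IsCoprime.add_mul_left_left_iff).1 k5).symm
  have hcop4 : IsCoprime (w ^ 4) (-(star w) ^ 4) := (hcopw.pow).neg_right
  have key := h w hcop4 (pow_ne_zero 4 hw0) hs0
  have hsize : ((z ^ 2 : ℕ) : ℝ) ≤ size (w ^ 4) (-(star w) ^ 4) := by
    refine le_trans (le_of_eq ?_) (le_max_left _ _)
    have : ‖GaussianInt.toComplex (w ^ 4)‖ = nm w ^ 4 := nm_pow w 4
    rw [this]
    have k : nm w ^ 2 = z := by rw [← norm_sq, hN]; simp
    have : nm w ^ 4 = (nm w ^ 2) ^ 2 := by ring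
    rw [this, k]
    push_cast
    rfl
  have hn0 : x ^ 2 * (4 * y ^ 2) * z ^ 2 ≠ 0 := by positivity
  have hrad : rad (w ^ 4 * -(star w) ^ 4 * (w ^ 4 + -(star w) ^ 4)) ≤
      (R (x ^ 2 * (4 * y ^ 2) * z ^ 2) : ℝ) := by
    refine le_trans ?_ (rad_le_R hn0)
    have hne : w ^ 4 * -(star w) ^ 4 * (w ^ 4 + -(star w) ^ 4) ≠ 0 := by
      refine mul_ne_zero (mul_ne_zero (pow_ne_zero 4 hw0) (neg_ne_zero.2 (pow_ne_zero 4 ?_))) hs0
      rwa [Ne, star_eq_zero]
    refine rad_mono hne (by exact_mod_cast hn0) fun Q hQ hd => ?_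
    have k1 : w ^ 4 * -(star w) ^ 4 * (w ^ 4 + -(star w) ^ 4) =
        (((z : ℤ) ^ 4 * (8 * x * y) : ℤ) : GaussianInt) * ⟨0, -1⟩ := by
      have k2 : w ^ 4 * -(star w) ^ 4 = -(w * star w) ^ 4 := by ring
      rw [k2, hws, hsum]
      have k3 : (⟨0, 8 * x * y⟩ : GaussianInt) = ((8 * x * y : ℤ) : GaussianInt) * ⟨0, 1⟩ := by
        apply Zsqrtd.ext <;> simp
      have k4 : (⟨0, -1⟩ : GaussianInt) = -⟨0, 1⟩ := by apply Zsqrtd.ext <;> simp
      rw [k3, k4]
      push_cast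
      ring
    have k5 : w ^ 4 * -(star w) ^ 4 * (w ^ 4 + -(star w) ^ 4) ∣
        ((x ^ 2 * (4 * y ^ 2) * z ^ 2 : ℕ) : GaussianInt) ^ 3 := by
      rw [k1]
      have k6 : IsUnit (⟨0, -1⟩ : GaussianInt) := by
        rw [← Zsqrtd.norm_eq_one_iff' (by norm_num)]
        rfl
      rw [k6.mul_right_dvd]
      refine ⟨(((x : ℤ) ^ 5 * 8 * (y : ℤ) ^ 5 * (z : ℤ) ^ 2 : ℤ) : GaussianInt), ?_⟩
      push_cast
      ring
    exact hQ.dvd_of_dvd_pow (hd.trans k5)
  refine le_trans ?_ (key.trans hrad)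
  refine mul_le_mul_of_nonneg_left (Real.rpow_le_rpow (Nat.cast_nonneg _) hsize (by linarith)) hc0.le

/-- the imaginary parts of powers -/
theorem impow (H : ZABC) {ε : ℝ} (h0 : 0 < ε) : ∃ c : ℝ, 0 < c ∧ ∀ (z : GaussianInt) (g : ℕ),
    IsCoprime z (star z) → (z ^ g).im ≠ 0 → c * nm z ^ ((1 - ε) * g - 2) ≤ |((z ^ g).im : ℝ)| := by
  rcases le_or_gt 1 ε with h1 | h1
  · refine ⟨1, one_pos, fun z g hz him => ?_⟩
    have hz0 : z ≠ 0 := by
      rintro rfl
      rw [star_zero] at hz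
      exact not_isCoprime_zero_zero hz
    have k1 : (1 : ℝ) ≤ |((z ^ g).im : ℝ)| := by
      have : 1 ≤ |(z ^ g).im| := Int.one_le_abs him
      exact_mod_cast this
    refine le_trans ?_ k1
    rw [one_mul]
    refine Real.rpow_le_one_of_one_le_of_nonpos (one_le_nm hz0) ?_
    have : (0 : ℝ) ≤ g := Nat.cast_nonneg g
    nlinarith
  obtain ⟨c, hc0, hc⟩ := iso1 H h0
  refine ⟨c / 2, by positivity, fun z g hz him => ?_⟩
  have hz0 : z ≠ 0 := by
    rintro rfl
    rw [star_zero] at hz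
    exact not_isCoprime_zero_zero hz
  have hsz0 : star z ≠ 0 := by rwa [Ne, star_eq_zero]
  have hsum : z ^ g + -(star z) ^ g = ((2 * (z ^ g).im : ℤ) : GaussianInt) * ⟨0, 1⟩ := by
    rw [← star_pow]
    generalize z ^ g = t
    apply Zsqrtd.ext
    · simp
    · simp; ring
  have hIne : IsUnit (⟨0, 1⟩ : GaussianInt) := by
    rw [← Zsqrtd.norm_eq_one_iff' (by norm_num)]
    rfl
  have h2im : (2 * (z ^ g).im : ℤ) ≠ 0 := mul_ne_zero (by norm_num) him
  have hs0 : z ^ g + -(star z) ^ g ≠ 0 := by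
    rw [hsum]
    exact mul_ne_zero (by exact_mod_cast h2im) hIne.ne_zero
  have key := hc (z ^ g) (-(star z) ^ g) (pow_ne_zero g hz0) (neg_ne_zero.2 (pow_ne_zero g hsz0)) hs0
    (hz.pow.neg_right) (by rw [nm_neg, nm_pow, nm_pow, nm_star])
  have hz1 := one_le_nm hz0
  have hsize : nm z ^ g ≤ size (z ^ g) (-(star z) ^ g) := by
    refine le_trans (le_of_eq ?_) (le_max_left _ _)
    exact (nm_pow z g).symm
  have hrad : rad (z ^ g * -(star z) ^ g * (z ^ g + -(star z) ^ g)) ≤ 2 * nm z ^ 2 * |((z ^ g).im : ℝ)| := by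
    have hm0 : ((z.norm * (2 * (z ^ g).im) : ℤ) : GaussianInt) ≠ 0 := by
      have : z.norm ≠ 0 := by
        rw [Ne, Zsqrtd.norm_eq_zero_iff (by norm_num)]
        exact hz0
      exact_mod_cast mul_ne_zero this h2im
    have k1 : rad (z ^ g * -(star z) ^ g * (z ^ g + -(star z) ^ g)) ≤
        rad ((z.norm * (2 * (z ^ g).im) : ℤ) : GaussianInt) := by
      refine rad_mono (mul_ne_zero (mul_ne_zero (pow_ne_zero g hz0)
        (neg_ne_zero.2 (pow_ne_zero g hsz0))) hs0) hm0 fun Q hQ hd => ?_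
      rw [Int.cast_mul, ← mul_star]
      rcases hQ.dvd_or_dvd hd with h | h
      · rcases hQ.dvd_or_dvd h with h | h
        · exact Dvd.dvd.mul_right (Dvd.dvd.mul_right (hQ.dvd_of_dvd_pow h) _) _
        · rw [dvd_neg] at h
          exact Dvd.dvd.mul_right (Dvd.dvd.mul_left (hQ.dvd_of_dvd_pow h) _) _
      · rw [hsum, hIne.dvd_mul_right] at h
        exact Dvd.dvd.mul_left h _
    refine k1.trans ((rad_le hm0).trans (le_of_eq ?_))
    rw [nm_int]
    push_cast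
    rw [abs_mul, abs_mul, norm_sq, abs_of_nonneg (sq_nonneg _), abs_of_nonneg (by norm_num : (0 : ℝ) ≤ 2)]
    ring
  have k2 : c * (nm z ^ g) ^ (1 - ε) ≤ 2 * nm z ^ 2 * |((z ^ g).im : ℝ)| := by
    refine le_trans ?_ (key.trans hrad)
    exact mul_le_mul_of_nonneg_left (Real.rpow_le_rpow (by positivity) hsize (by linarith)) hc0.le
  have hzp : 0 < nm z := by linarith
  have k3 : nm z ^ ((1 - ε) * g - 2) = (nm z ^ g) ^ (1 - ε) / nm z ^ 2 := by
    rw [Real.rpow_sub hzp, ← Real.rpow_natCast (nm z) g, ← Real.rpow_mul hzp.le, mul_comm (g : ℝ)]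
    congr 1
    exact_mod_cast Real.rpow_natCast (nm z) 2
  rw [k3, ← mul_div_assoc, div_le_iff₀ (by positivity)]
  linarith

end Pool.Agent.Q252.IT
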